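import Pool.Agent.Helper74.CA.Stmts

/-!
Module ALT (`MP_cb0591_al`).
-/

set_option autoImplicit false

namespace Pool.Agent.Helper74.CA

theorem alt_neg {k L : Type} [Field k] [AddCommGroup L] [Module k L] (h2 : (2 : k) ≠ 0) {x : L}
    (h : x = -x) : x = 0 := by
  have h1 : (2 : k) • x = 0 := by
    rw [show (2 : k) = 1 + 1 by norm_num, add_smul, one_smul]
    nth_rewrite 1 [h]
    exact neg_add_cancel x
  exact (smul_eq_zero.1 h1).resolve_left h2

theorem alt_dep {k L : Type} [Field k] [AddCommGroup L] [Module k L] (e : Fin 3 → L)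
    {x y z w : L} (hx : x ∈ Submodule.span k (Set.range e))
    (hy : y ∈ Submodule.span k (Set.range e)) (hz : z ∈ Submodule.span k (Set.range e))
    (hw : w ∈ Submodule.span k (Set.range e)) : ∃ a b c d : k,
    a • x + b • y + c • z + d • w = 0 ∧ (a ≠ 0 ∨ b ≠ 0 ∨ c ≠ 0 ∨ d ≠ 0) := by
  let v : Fin 4 → Submodule.span k (Set.range e) := ![⟨x, hx⟩, ⟨y, hy⟩, ⟨z, hz⟩, ⟨w, hw⟩]
  have hfin : Module.Finite k (Submodule.span k (Set.range e)) :=
    FiniteDimensional.span_of_finite k (Set.finite_range e)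
  have hnot : ¬ LinearIndependent k v := by
    intro hv
    have h1 := hv.fintype_card_le_finrank
    have h2 : Module.finrank k (Submodule.span k (Set.range e)) ≤ Fintype.card (Fin 3) :=
      finrank_range_le_card e
    rw [Fintype.card_fin] at h1 h2
    omega
  rw [Fintype.not_linearIndependent_iff] at hnot
  obtain ⟨g, hg, i, hi⟩ := hnot
  refine ⟨g 0, g 1, g 2, g 3, ?_, ?_⟩
  · have h1 := congrArg Subtype.val hg
    rw [Fin.sum_univ_four] at h1
    simpa [v] using h1
  · fin_cases i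
    · exact Or.inl hi
    · exact Or.inr (Or.inl hi)
    · exact Or.inr (Or.inr (Or.inl hi))
    · exact Or.inr (Or.inr (Or.inr hi))

theorem st_ALT : ST_ALT := by
  intro k L _ _ _ E e B h2 hsp hadd hsm s12 s23 s34
  have z34 : ∀ x ∈ E, ∀ y ∈ E, ∀ z ∈ E, B x y z z = 0 := fun x hx y hy z hz =>
    alt_neg h2 (s34 x hx y hy z hz z hz)
  have z24 : ∀ x ∈ E, ∀ y ∈ E, ∀ z ∈ E, B x y z y = 0 := fun x hx y hy z hz => by
    rw [s23 x hx z hz y hy y hy, z34 x hx z hz y hy, neg_zero]
  have z14 : ∀ x ∈ E, ∀ y ∈ E, ∀ z ∈ E, B x y z x = 0 := fun x hx y hy z hz => by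
    rw [s12 y hy x hx z hz x hx, z24 y hy x hx z hz, neg_zero]
  have core : ∀ x ∈ E, ∀ y ∈ E, ∀ z ∈ E, ∀ w ∈ E, ∀ a b c r : k,
      a • x + b • y + c • z + r • w = 0 → r ≠ 0 → B x y z w = 0 := by
    intro x hx y hy z hz w hw a b c r h hr
    have h0 : B x y z 0 = 0 := by
      have := hsm x y z 0 0
      rwa [zero_smul, zero_smul] at this
    have h1 : B x y z (a • x + b • y + c • z + r • w) = 0 := by
      rw [h]
      exact h0
    rw [hadd, hadd, hadd, hsm, hsm, hsm, hsm, z14 x hx y hy z hz, z24 x hx y hy z hz,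
      z34 x hx y hy z hz, smul_zero, smul_zero, smul_zero, zero_add, zero_add, zero_add] at h1
    exact (smul_eq_zero.1 h1).resolve_left hr
  intro x hx y hy z hz w hw
  obtain ⟨a, b, c, r, h, hne⟩ := alt_dep e (hsp x hx) (hsp y hy) (hsp z hz) (hsp w hw)
  rcases hne with hne | hne | hne | hne
  · have h1 := core y hy z hz w hw x hx b c r a (by rw [← h]; abel) hne
    rw [s12 y hy x hx z hz w hw, s23 y hy z hz x hx w hw, s34 y hy z hz w hw x hx, h1, neg_zero,
      neg_zero, neg_zero]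
  · have h1 := core x hx z hz w hw y hy a c r b (by rw [← h]; abel) hne
    rw [s23 x hx z hz y hy w hw, s34 x hx z hz w hw y hy, h1, neg_zero, neg_zero]
  · have h1 := core x hx y hy w hw z hz a b r c (by rw [← h]; abel) hne
    rw [s34 x hx y hy w hw z hz, h1, neg_zero]
  · exact core x hx y hy z hz w hw a b c r h hne

end Pool.Agent.Helper74.CA
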