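import Pool.Agent.Helper74.CA.Lib

/-!
Module M5A (`MP_cb0591_al`).
-/

set_option autoImplicit false

namespace Pool.Agent.Helper74.CA

theorem st_M5A (hN : ST_N4L) : ST_M5A := by
  intro k _ L _ _ n d v1 v2 v3 v4 v5 b c z5 hb hc h5 e1 e2 e3 e4 e5 hbb hbc
  have hb0 : b ≠ 0 := left_ne_zero_of_mul_eq_one hbc
  have hcc : c * c ≠ 1 := by
    intro h
    apply hbb
    have : b = c := by linear_combination c * hbc - b * h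
    rw [this]
    exact h
  have hbn : b ≠ -1 := by
    rintro rfl
    exact hbb (by ring)
  have hcn : c ≠ -1 := by
    rintro rfl
    exact hcc (by ring)
  have hbc' : b ≠ c := by
    rintro rfl
    exact hbb hbc
  have eY : Ev d (1 + 1 + 1) (b * b * c) ⁅⁅v1, v2⁆, v3⁆ := (e1.lie e2).lie e3
  have eY1 : b * b * c ≠ 1 := by
    rw [mul_assoc, hbc, mul_one]
    exact hb
  have s1 : ⁅⁅⁅⁅v1, v2⁆, v3⁆, v4⁆, v5⁆ = -⁅⁅⁅⁅v1, v2⁆, v3⁆, v5⁆, v4⁆ :=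
    d.Tev (by norm_num) eY1 eY e4.1 e5.1
  by_cases hY : ⁅⁅⁅v1, v2⁆, v3⁆, v5⁆ = 0
  · rw [s1, hY, zero_lie, neg_zero]
  -- `z5 = c`
  have hz5 : z5 = c := by
    rcases (hN k L n d v1 v2 v3 v5 b b c z5 hb hb hc h5 e1 e2 e3 e5).2.2 hY with
      ⟨-, h⟩ | h | h | h
    · rcases h with h | h | h
      · exact absurd h.1 hbn
      · exact absurd h.1 hbn
      · exact absurd h.1 hbn
    · exact h.2.2.1.symm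
    · exact absurd h.2.1 hbc'
    · exact absurd h.2.2.1 hbc'
  rw [hz5] at e5
  -- `f(1234) = f(2341)`
  have s2 : ⁅⁅⁅v1, v2⁆, v3⁆, v4⁆ = ⁅⁅⁅v2, v3⁆, v4⁆, v1⁆ := by
    obtain ⟨t1, t2, -⟩ := hN k L n d v1 v2 v3 v4 b b c c hb hb hc hc e1 e2 e3 e4
    have t3 := t1 hbb
    -- `h1 = h2`: from the pair `3, 4`
    have t4 : ⁅⁅⁅v1, v3⁆, v4⁆, v2⁆ = -⁅⁅⁅v2, v3⁆, v4⁆, v1⁆ := by
      have f3412 : ⁅⁅⁅v3, v4⁆, v1⁆, v2⁆ = ⁅⁅⁅v1, v3⁆, v4⁆, v2⁆ := by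
        rw [d.cyc e3.1 e4.1 e1.1, d.cyc e4.1 e1.1 e3.1]
      have f3421 : ⁅⁅⁅v3, v4⁆, v2⁆, v1⁆ = ⁅⁅⁅v2, v3⁆, v4⁆, v1⁆ := by
        rw [d.cyc e3.1 e4.1 e2.1, d.cyc e4.1 e2.1 e3.1]
      rw [← f3412, ← f3421]
      exact d.Tev (i := 1 + 1) (by norm_num) hcc (e3.lie e4) e1.1 e2.1
    have t5 : ⁅⁅⁅v1, v2⁆, v4⁆, v3⁆ = -⁅⁅⁅v1, v2⁆, v3⁆, v4⁆ := by rw [t3, neg_neg]
    rw [t4, t5] at t2
    have t6 := d.three (⁅⁅⁅v1, v2⁆, v3⁆, v4⁆ - ⁅⁅⁅v2, v3⁆, v4⁆, v1⁆)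
    have t7 : (⁅⁅⁅v1, v2⁆, v3⁆, v4⁆ - ⁅⁅⁅v2, v3⁆, v4⁆, v1⁆) +
        (⁅⁅⁅v1, v2⁆, v3⁆, v4⁆ - ⁅⁅⁅v2, v3⁆, v4⁆, v1⁆) = 0 := by
      rw [← t2]
      abel
    rw [t7, zero_add] at t6
    exact sub_eq_zero.1 t6
  rw [s2]
  have eW : Ev d (1 + 1 + 1) (b * c * c) ⁅⁅v2, v3⁆, v4⁆ := (e2.lie e3).lie e4
  have eW1 : b * c * c ≠ 1 := by
    rw [hbc, one_mul]
    exact hc
  rw [d.Tev (by norm_num) eW1 eW e1.1 e5.1]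
  have s3 : ⁅⁅⁅v2, v3⁆, v4⁆, v5⁆ = 0 := by
    by_contra hne
    rcases (hN k L n d v2 v3 v4 v5 b c c c hb hc hc hc e2 e3 e4 e5).2.2 hne with
      ⟨h, -⟩ | h | h | h
    · exact hcn h
    · exact hbc' h.2.1
    · exact hbc' h.2.1
    · exact hbc' h.2.1
  rw [s3, zero_lie, neg_zero]

end Pool.Agent.Helper74.CA
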