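import Pool.Agent.Helper74.CA.Lib

/-!
Module M5B (`MP_cb0591_al`).
-/

set_option autoImplicit false

namespace Pool.Agent.Helper74.CA

theorem st_M5B (hN : ST_N4L) (hA : ST_ALT) : ST_M5B := by
  intro k _ L _ _ n d v1 v2 v3 v4 v5 x z5 hx1 hxn h5 e1 e2 e3 e4 e5
  have hn1 : (-1 : k) ≠ 1 := d.neg_one
  have hmx : (-1 : k) * x ≠ 1 := by
    intro h
    exact hxn (by linear_combination -h)
  have eY : Ev d (1 + 1 + 1) (-1 * -1 * x) ⁅⁅v1, v2⁆, v3⁆ := (e1.lie e2).lie e3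
  have eY1 : (-1 : k) * -1 * x ≠ 1 := by
    intro h
    exact hx1 (by linear_combination h)
  have s1 : ⁅⁅⁅⁅v1, v2⁆, v3⁆, v4⁆, v5⁆ = -⁅⁅⁅⁅v1, v2⁆, v3⁆, v5⁆, v4⁆ :=
    d.Tev (by norm_num) eY1 eY e4.1 e5.1
  by_cases hY : ⁅⁅⁅v1, v2⁆, v3⁆, v5⁆ = 0
  · rw [s1, hY, zero_lie, neg_zero]
  -- `z5 = -1`
  have hz5 : z5 = -1 := by
    have hsq : ¬ ((-1 : k) * -1 ≠ 1) := fun h => h (by ring)
    rcases (hN k L n d v1 v2 v3 v5 (-1) (-1) x z5 hn1 hn1 hx1 h5 e1 e2 e3 e5).2.2 hY with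
      ⟨h, -⟩ | h | h | h
    · exact h
    · exact absurd h.1 hsq
    · exact absurd h.1 hsq
    · exact absurd h.1 hsq
  rw [hz5] at e5
  -- the eigenspace
  let E : Submodule k L :=
    { carrier := {u | Ev d 1 (-1) u}
      add_mem' := fun ha hb => Ev.add ha hb
      zero_mem' := ⟨Submodule.zero_mem _, by rw [map_zero, smul_zero]⟩
      smul_mem' := fun r _ hu => Ev.smul r hu }
  have hE : ∀ u, u ∈ E ↔ Ev d 1 (-1) u := fun u => Iff.rfl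
  refine hA k L E d.e (fun x y z w => ⁅⁅⁅⁅x, y⁆, v3⁆, z⁆, w⁆) d.two ?_ ?_ ?_ ?_ ?_ ?_ v1
    ((hE _).2 e1) v2 ((hE _).2 e2) v4 ((hE _).2 e4) v5 ((hE _).2 e5)
  · intro u hu
    refine d.espan u hu.1 ?_
    have := hu.2
    rwa [neg_smul, one_smul] at this
  · intro x y z w w'
    exact lie_add _ _ _
  · intro x y z w r
    exact lie_smul _ _ _
  · intro x _ y _ z _ w _
    change ⁅⁅⁅⁅y, x⁆, v3⁆, z⁆, w⁆ = -⁅⁅⁅⁅x, y⁆, v3⁆, z⁆, w⁆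
    rw [← lie_skew x y, neg_lie, neg_lie, neg_lie, neg_neg]
  · intro p hp q hq r hr w hw
    change ⁅⁅⁅⁅p, r⁆, v3⁆, q⁆, w⁆ = -⁅⁅⁅⁅p, q⁆, v3⁆, r⁆, w⁆
    have hp' : Ev d 1 (-1) p := hp
    rw [d.T1 hp.1 hr.1 e3.1, d.T1 hp.1 hq.1 e3.1, neg_lie, neg_lie, neg_lie, neg_lie,
      d.Tev (i := 1 + 1) (by norm_num) hmx (hp'.lie e3) hr.1 hq.1, neg_lie]
  · intro p hp q hq r hr w hw
    change ⁅⁅⁅⁅p, q⁆, v3⁆, w⁆, r⁆ = -⁅⁅⁅⁅p, q⁆, v3⁆, r⁆, w⁆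
    have hp' : Ev d 1 (-1) p := hp
    have hq' : Ev d 1 (-1) q := hq
    exact d.Tev (i := 1 + 1 + 1) (by norm_num) eY1 ((hp'.lie hq').lie e3) hw.1 hr.1

end Pool.Agent.Helper74.CA
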