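import Pool.Agent.Helper74.CA.Stmts

/-!
Module N4 (`MP_cb0591_al`).
-/

set_option autoImplicit false

namespace Pool.Agent.Helper74.CA

theorem n4_inj {k : Type} [Field k] {z w v : k} (h1 : z * w = 1) (h2 : z * v = 1) : w = v := by
  linear_combination v * h1 - w * h2

theorem n4_neg {k : Type} [Field k] {z : k} (h1 : z * z = 1) (h2 : z ≠ 1) : z = -1 :=
  (mul_self_eq_one_iff.1 h1).resolve_left h2

theorem n4_three {k L : Type} [Field k] [AddCommGroup L] [Module k L] (h3 : (3 : k) = 0) (h : L) :
    h + h + h = 0 := by
  have h' : (3 : k) • h = h + h + h := by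
    rw [show (3 : k) = 1 + 1 + 1 by norm_num, add_smul, add_smul, one_smul]
  rw [← h', h3, zero_smul]

theorem st_N4 : ST_N4 := by
  intro k L _ _ _ h1 h2 h3 h4 z1 z2 z3 z4 hc n1 n2 n3 n4 hs e12 e34 e13 e24 e14 e23 hne
  have four : ∀ h : L, h + h + h + h = 0 → h = 0 := by
    intro h hh
    rw [n4_three hc, zero_add] at hh
    exact hh
  have allc : h1 = h4 → h2 = h4 → h3 = h4 → False := by
    rintro rfl rfl rfl
    exact hne (four _ hs)
  by_cases p12 : z1 * z2 = 1
  · by_cases p13 : z1 * z3 = 1
    · have a : z2 = z3 := n4_inj p12 p13
      by_cases p23 : z2 * z3 = 1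
      · -- all equal to `-1`
        have b1 : z2 = -1 := n4_neg (by rw [← a] at p23; exact p23) n2
        have b2 : z3 = -1 := by rw [← a]; exact b1
        have b3 : z1 = -1 := by
          rw [b1] at p12
          linear_combination -p12
        by_cases b4 : z4 = -1
        · exact Or.inl ⟨b4, Or.inl ⟨b3, b1⟩⟩
        · exfalso
          have c1 : z3 * z4 ≠ 1 := by
            rw [b2]
            intro h
            exact b4 (by linear_combination -h)
          have c2 : z2 * z4 ≠ 1 := by
            rw [b1]
            intro h
            exact b4 (by linear_combination -h)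
          have d1 := e34 c1
          have d2 := e24 c2
          rw [← d1, ← d2, n4_three hc, zero_add] at hs
          exact hne hs
      · -- `1` and `4` joined
        have d1 := e23 p23
        by_cases p24 : z2 * z4 = 1
        · have b1 : z1 = z4 := n4_inj (by rw [mul_comm]; exact p12) p24
          refine Or.inr (Or.inr (Or.inr ⟨?_, b1, a, p12⟩))
          intro h
          have b2 : z1 = z2 := n4_inj h p12
          rw [← a, ← b2] at p23
          exact p23 h
        · exfalso
          have p34 : z3 * z4 ≠ 1 := by rw [← a]; exact p24
          have d2 := e24 p24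
          have d3 := e34 p34
          exact allc d1 (d3.symm.trans d1) (d2.symm.trans d1)
    · have d1 := e13 p13
      by_cases p23 : z2 * z3 = 1
      · -- `2` and `4` joined
        have a : z1 = z3 := n4_inj (by rw [mul_comm]; exact p12) p23
        by_cases p14 : z1 * z4 = 1
        · have b1 : z2 = z4 := n4_inj p12 p14
          refine Or.inr (Or.inr (Or.inl ⟨?_, a, b1, p12⟩))
          intro h
          rw [← a] at p13
          exact p13 h
        · exfalso
          have p34 : z3 * z4 ≠ 1 := by rw [← a]; exact p14
          have d2 := e14 p14
          have d3 := e34 p34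
          exact allc (d3.trans d1) d1 (d2.symm.trans d1)
      · have d2 := e23 p23
        by_cases p24 : z2 * z4 = 1
        · by_cases p14 : z1 * z4 = 1
          · have b1 : z1 = z2 := n4_inj (z := z4) (by rw [mul_comm]; exact p14)
              (by rw [mul_comm]; exact p24)
            have b2 : z1 = -1 := n4_neg (by rw [← b1] at p12; exact p12) n1
            have b3 : z4 = -1 := by
              rw [b2] at p14
              linear_combination -p14
            exact Or.inl ⟨b3, Or.inl ⟨b2, by rw [← b1]; exact b2⟩⟩
          · exact (allc d2 d1 ((e14 p14).symm.trans d1)).elim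
        · exact (allc d2 d1 ((e24 p24).symm.trans d2)).elim
  · have d1 := e12 p12
    by_cases p13 : z1 * z3 = 1
    · by_cases p23 : z2 * z3 = 1
      · -- `3` and `4` joined
        have a : z1 = z2 := n4_inj (z := z3) (by rw [mul_comm]; exact p13)
          (by rw [mul_comm]; exact p23)
        by_cases p14 : z1 * z4 = 1
        · have b1 : z3 = z4 := n4_inj p13 p14
          refine Or.inr (Or.inl ⟨?_, a, b1, p13⟩)
          intro h
          rw [← a] at p12
          exact p12 h
        · exfalso
          have p24 : z2 * z4 ≠ 1 := by rw [← a]; exact p14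
          have d2 := e14 p14
          have d3 := e24 p24
          exact allc (d3.trans d1) (d2.trans d1) d1
      · have d2 := e23 p23
        by_cases p34 : z3 * z4 = 1
        · by_cases p14 : z1 * z4 = 1
          · have b1 : z1 = z3 := n4_inj (z := z4) (by rw [mul_comm]; exact p14)
              (by rw [mul_comm]; exact p34)
            have b2 : z1 = -1 := n4_neg (by rw [← b1] at p13; exact p13) n1
            have b3 : z4 = -1 := by
              rw [b2] at p14
              linear_combination -p14
            exact Or.inl ⟨b3, Or.inr (Or.inl ⟨b2, by rw [← b1]; exact b2⟩)⟩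
          · exact (allc d2 ((e14 p14).trans d1) d1).elim
        · exact (allc d2 ((e34 p34).symm.trans d2) d1).elim
    · have d2 := e13 p13
      by_cases p23 : z2 * z3 = 1
      · by_cases p34 : z3 * z4 = 1
        · by_cases p24 : z2 * z4 = 1
          · have b1 : z2 = z3 := n4_inj (z := z4) (by rw [mul_comm]; exact p24)
              (by rw [mul_comm]; exact p34)
            have b2 : z2 = -1 := n4_neg (by rw [← b1] at p23; exact p23) n2
            have b3 : z4 = -1 := by
              rw [b2] at p24
              linear_combination -p24
            exact Or.inl ⟨b3, Or.inr (Or.inr ⟨b2, by rw [← b1]; exact b2⟩)⟩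
          · exact (allc ((e24 p24).trans d1) d2 d1).elim
        · exact (allc ((e34 p34).trans d2) d2 d1).elim
      · exact (allc (e23 p23) d2 d1).elim

end Pool.Agent.Helper74.CA
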