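import Pool.Agent.Helper74.CA.Lib

/-!
Module N4L (`MP_cb0591_al`).
-/

set_option autoImplicit false

namespace Pool.Agent.Helper74.CA

theorem st_N4L (hN4 : ST_N4) : ST_N4L := by
  intro k _ L _ _ n d v1 v2 v3 v4 z1 z2 z3 z4 n1 n2 n3 n4 e1 e2 e3 e4
  have f3412 : ⁅⁅⁅v3, v4⁆, v1⁆, v2⁆ = ⁅⁅⁅v1, v3⁆, v4⁆, v2⁆ := by
    rw [d.cyc e3.1 e4.1 e1.1, d.cyc e4.1 e1.1 e3.1]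
  have f3421 : ⁅⁅⁅v3, v4⁆, v2⁆, v1⁆ = ⁅⁅⁅v2, v3⁆, v4⁆, v1⁆ := by
    rw [d.cyc e3.1 e4.1 e2.1, d.cyc e4.1 e2.1 e3.1]
  have t12 : z1 * z2 ≠ 1 → ⁅⁅⁅v1, v2⁆, v3⁆, v4⁆ = -⁅⁅⁅v1, v2⁆, v4⁆, v3⁆ := fun h =>
    d.Tev (i := 1 + 1) (by norm_num) h (e1.lie e2) e3.1 e4.1
  have t34 : z3 * z4 ≠ 1 → ⁅⁅⁅v1, v3⁆, v4⁆, v2⁆ = -⁅⁅⁅v2, v3⁆, v4⁆, v1⁆ := fun h => by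
    rw [← f3412, ← f3421]
    exact d.Tev (i := 1 + 1) (by norm_num) h (e3.lie e4) e1.1 e2.1
  have t13 : z1 * z3 ≠ 1 → ⁅⁅⁅v1, v3⁆, v4⁆, v2⁆ = ⁅⁅⁅v1, v2⁆, v3⁆, v4⁆ := fun h => by
    rw [d.Tev (i := 1 + 1) (by norm_num) h (e1.lie e3) e4.1 e2.1, d.T1 e1.1 e3.1 e2.1, neg_lie,
      neg_neg]
  have t24 : z2 * z4 ≠ 1 → ⁅⁅⁅v2, v3⁆, v4⁆, v1⁆ = ⁅⁅⁅v1, v2⁆, v4⁆, v3⁆ := fun h => by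
    rw [d.T1 e2.1 e3.1 e4.1, neg_lie,
      d.Tev (i := 1 + 1) (by norm_num) h (e2.lie e4) e3.1 e1.1, neg_neg, d.cyc e1.1 e2.1 e4.1]
  have t14 : z1 * z4 ≠ 1 → ⁅⁅⁅v1, v3⁆, v4⁆, v2⁆ = -⁅⁅⁅v1, v2⁆, v4⁆, v3⁆ := fun h => by
    rw [d.T1 e1.1 e3.1 e4.1, neg_lie,
      d.Tev (i := 1 + 1) (by norm_num) h (e1.lie e4) e3.1 e2.1, neg_neg, d.T1 e1.1 e4.1 e2.1,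
      neg_lie]
  have t23 : z2 * z3 ≠ 1 → ⁅⁅⁅v2, v3⁆, v4⁆, v1⁆ = -⁅⁅⁅v1, v2⁆, v3⁆, v4⁆ := fun h => by
    rw [d.Tev (i := 1 + 1) (by norm_num) h (e2.lie e3) e4.1 e1.1, d.cyc e1.1 e2.1 e3.1]
  have hj : ⁅⁅⁅v1, v2⁆, v3⁆, v4⁆ - ⁅⁅⁅v1, v2⁆, v4⁆, v3⁆ + ⁅⁅⁅v1, v3⁆, v4⁆, v2⁆ -
      ⁅⁅⁅v2, v3⁆, v4⁆, v1⁆ = 0 := by
    rw [← f3412, ← f3421, jac ⁅v1, v2⁆ v3 v4, jac ⁅v3, v4⁆ v1 v2, ← lie_skew ⁅v3, v4⁆ ⁅v1, v2⁆]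
    abel
  refine ⟨t12, hj, fun hne => ?_⟩
  refine hN4 k L (-⁅⁅⁅v2, v3⁆, v4⁆, v1⁆) ⁅⁅⁅v1, v3⁆, v4⁆, v2⁆ (-⁅⁅⁅v1, v2⁆, v4⁆, v3⁆)
    ⁅⁅⁅v1, v2⁆, v3⁆, v4⁆ z1 z2 z3 z4 d.c3 n1 n2 n3 n4 ?_ ?_ ?_ ?_ ?_ ?_ ?_ hne
  · rw [← hj]
    abel
  · exact fun h => (t12 h).symm
  · exact fun h => (t34 h).symm
  · exact t13
  · intro h
    rw [t24 h]
  · exact t14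
  · intro h
    rw [t23 h, neg_neg]

end Pool.Agent.Helper74.CA
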